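import Pool.Agent.P.MP_8cce2a_nt.GMain

namespace Pool.Agent.Results.MP_8cce2a_nt.Intervals

open Polynomial

/-- Monic polynomials of degree `n` with constant term `κ ≠ 0` and the other coefficients uniform
on `q ≥ 2` consecutive integers are irreducible with probability tending to one. -/
theorem result (A : ℤ) (q : ℕ) (hq : 2 ≤ q) (κ : ℤ) (hκ : κ ≠ 0) :
    Filter.Tendsto
      (fun n : ℕ =>
        (({f : ℤ[X] | f.Monic ∧ f.natDegree = n ∧ f.coeff 0 = κ ∧
            (∀ i, 0 < i → i < n → A ≤ f.coeff i ∧ f.coeff i < A + q) ∧ Irreducible f} :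
            Set ℤ[X]).ncard : ℝ) / (q : ℝ) ^ (n - 1))
      Filter.atTop (nhds 1) :=
  Pool.Agent.P.MP_8cce2a_nt.G.main A q hq κ hκ

end Pool.Agent.Results.MP_8cce2a_nt.Intervals
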