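import Pool.Agent.P.MP_8cce2a_nt.NonRec

namespace Pool.Agent.Results.MP_8cce2a_nt.NonReciprocal

open Polynomial

/-- The probability that a random zero-one polynomial of degree `n` has a divisor of degree at
most `n/2` which is not self-reciprocal is exponentially small in `n`, and not smaller. -/
theorem result : ∃ c : ℝ, 0 < c ∧ ∃ N : ℕ, ∀ n : ℕ, N ≤ n →
    Real.exp (-(n : ℝ)) ≤
        (({S : Finset ℕ | S ⊆ Finset.Ioo 0 n ∧
            ∃ g : ℤ[X], g ∣ (X : ℤ[X]) ^ n + 1 + ∑ i ∈ S, (X : ℤ[X]) ^ i ∧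
              2 * g.natDegree ≤ n ∧ g.reverse ≠ g} : Set (Finset ℕ)).ncard : ℝ)
          / (2 : ℝ) ^ (n - 1) ∧
      (({S : Finset ℕ | S ⊆ Finset.Ioo 0 n ∧
            ∃ g : ℤ[X], g ∣ (X : ℤ[X]) ^ n + 1 + ∑ i ∈ S, (X : ℤ[X]) ^ i ∧
              2 * g.natDegree ≤ n ∧ g.reverse ≠ g} : Set (Finset ℕ)).ncard : ℝ)
          / (2 : ℝ) ^ (n - 1) ≤ Real.exp (-(c * n)) :=
  Pool.Agent.P.MP_8cce2a_nt.nonrec_rate

end Pool.Agent.Results.MP_8cce2a_nt.NonReciprocal
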