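import Pool.Agent.P.MP_8cce2a_nt.Rate

namespace Pool.Agent.Results.MP_8cce2a_nt.SharpRate

/-- The probability that a random zero-one polynomial of degree `n` is reducible equals
`sqrt (2 / (π n))` up to an error `O(1/n)`. -/
theorem result : ∃ C : ℝ, ∀ n : ℕ, 1 ≤ n →
    |1 - (({S : Finset ℕ | S ⊆ Finset.Ioo 0 n ∧
            Irreducible ((Polynomial.X : Polynomial ℤ) ^ n + 1 +
              ∑ i ∈ S, (Polynomial.X : Polynomial ℤ) ^ i)} : Set (Finset ℕ)).ncard : ℝ)
          / (2 : ℝ) ^ (n - 1)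
      - Real.sqrt (2 / (Real.pi * n))| ≤ C / n :=
  Pool.Agent.P.MP_8cce2a_nt.sharp_rate

end Pool.Agent.Results.MP_8cce2a_nt.SharpRate
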